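import Pool.Agent.N197.QF.Fam

/-!
# `ℓ`-Galois special points: abelian varieties with a factor with a large image modulo two

Let `K` be a number field, let `A i`, for `i` in a finite nonempty set, be abelian varieties over `K` of
dimension `≥ 3`, and let `B` be an ARBITRARY abelian variety over `K`; let `x` be the point of `𝒜_g` of the
abelian variety `X = ∏ A i × B` (with some principal polarization). We show that `x` is not `ℓ`-Galois
special, for EVERY prime number `ℓ`, under hypotheses on the image of Galois modulo TWO only.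

We choose rational bases of the first Betti homology groups; `J i` and `J'` are the matrices of
polarizations, `r i ℓ` and `R ℓ` are the Galois representations on the `ℓ`-adic Tate modules, in the same
bases (comparison isomorphism), for all prime numbers `ℓ`. The structure `IsAbelianVariety` lists known
properties: continuity, the Weil pairing, the Frobenius polynomials, independent of `ℓ` and with Weil
numbers of weight one as roots; `IsFaltings` lists semisimplicity and the Tate conjecture for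
endomorphisms (`E i` is the set of the rational matrices which are given by the endomorphisms of `A i` over
the algebraic closure).

* `LargeModTwo`: the polarizations are integral on stable lattices over `ℤ_2`, there are `N i + 1` integral
  vectors `e i a` with odd mutual products (they exist for every integral alternating form with odd
  determinant), and each EVEN permutation of the vectors `e i a` modulo two is the action of some element
  of the Galois group which acts trivially on `A j [2]` for `j ≠ i`. For example if the joint image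
  modulo two contains the product of the groups `Sp(N i, 𝔽₂)`, or only the product of the alternating
  groups of degrees `N i + 1`, as for the Jacobians of `y² = f i (x)` of odd degrees `N i + 1` with Galois
  groups `S` or `A` and independent splitting fields.
* `FreeValues`: `B [2]` does not absorb the action on the frames: for each `i` some element of the Galois
  group acts trivially on `B [2]` and permutes the frames modulo two, the `i`-th one not trivially;
  or `(N i + 1)! > 2 ^ (d ^ 2 + 1)` with `d = 2 dim B`.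

Let `𝔫` be the Lie algebra over `ℚ` of the matrices `blocks Z 0` with `Z i` in `sp(J i)` (`InN`); it is the
Lie algebra of the group `N = ∏ Sp(J i)`, which acts on the `H₁(A i)`.

**Theorem.** (1) For EVERY prime number `ℓ` the elements of `𝔫` kill all `ℓ`-adic Tate tensors of `X`, that is
all multilinear forms on the Tate module which are multiplied by a power of the cyclotomic character on a
subgroup of finite index (`InLieAlgebra`).

(2) For all complex structures `C i` on the real vector spaces `H₁(A i, ℝ)` some element of `𝔫` does not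
commute with the `C i`.

(3) If the connected monodromy group of a family of abelian varieties through `X` is contained in `N`
(`IsFamily`), then for EVERY prime number `ℓ` the `ℓ`-adic Tate tensors of the fibre `X` are the same as
the Tate tensors of the family.

**Consequences.** By Faltings the group `G_{ℓ,x}` is reductive and determined by the Tate tensors, so it
contains `N` by (1), for every `ℓ`; by Deligne `N` is contained in the Mumford-Tate group. The orbit of a
lifting of `x` to the Siegel upper half space under `N(ℝ)` is of positive dimension by (2), and its image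
`Z` in `𝒜_g` is a weakly special subvariety (the locus of the abelian varieties `∏ A' i × B` with
arbitrary polarized `A' i`, up to isogeny), with connected monodromy group `N`. The fundamental group of
(a finite covering of) `Z` over a finitely generated field is generated by the geometric one and the image
of the section given by `x`; so by (3) `G_{ℓ,Z} = G_{ℓ,x}`: the point `x` is not `ℓ`-Galois special,
for every `ℓ`. In other words: an `ℓ`-Galois special point, for any `ℓ`, has no factor with a large image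
modulo two such that the complementary factor satisfies `FreeValues`.

For `ℓ`-adic conditions on one factor compare MP_09799c_ag.OneGoodFactor. The proof is as for
MP_e965d0_ag.LargeImageModTwoFactors: the Lie algebra of the Tate tensors of `X` is `∏ sp(J i) × 𝔤_ℓ(B)`
for every `ℓ`.
-/

set_option autoImplicit false

namespace Pool.Agent.Results.MP_09799c_ag.LargeImageModTwoPoints

open Matrix Polynomial NumberField IsDedekindDomain
open Pool.Agent.H204R3.GP (FiniteIndexSemisimple)

/-- the absolute Galois group, with the profinite (Krull) topology -/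
abbrev AbsoluteGaloisGroup (K : Type) [Field K] : Type := Gal(AlgebraicClosure K/K)

/-- `σ` is an (arithmetic) Frobenius element at the prime `v` of `K`: there is a maximal ideal `Q` above
`v` of the ring of all algebraic integers with `σ x ≡ x ^ N(v)` modulo `Q` for all `x` -/
def IsFrobenius {K : Type} [Field K] [NumberField K] (v : HeightOneSpectrum (𝓞 K))
    (σ : AbsoluteGaloisGroup K) : Prop :=
  ∃ Q : Ideal (𝓞 (AlgebraicClosure K)), Q.IsMaximal ∧
    Q.comap (algebraMap (𝓞 K) (𝓞 (AlgebraicClosure K))) = v.asIdeal ∧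
    ∀ x : 𝓞 (AlgebraicClosure K), σ • x - x ^ Ideal.absNorm v.asIdeal ∈ Q

/-- The roots of the rational polynomial `P` are algebraic integers of absolute value `q ^ (1 / 2)`, with
`q` the number of elements of the residue field of `v`. -/
def IsWeil {K : Type} [Field K] [NumberField K] (v : HeightOneSpectrum (𝓞 K)) (P : ℚ[X]) : Prop :=
  ∀ z : ℂ, aeval z P = 0 → ‖z‖ ^ 2 = (Ideal.absNorm v.asIdeal : ℝ) ∧ IsIntegral ℤ z

/-- `χ` is the cyclotomic character with values in `ℚ_ℓ` -/
structure IsCyclotomic {K : Type} [Field K] [NumberField K] (S : Set (HeightOneSpectrum (𝓞 K)))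
    (ℓ : ℕ) [Fact ℓ.Prime] (χ : AbsoluteGaloisGroup K →* ℚ_[ℓ]) : Prop where
  continuous : Continuous χ
  frobenius : ∀ v ∉ S, (ℓ : 𝓞 K) ∉ v.asIdeal → ∀ σ : AbsoluteGaloisGroup K, IsFrobenius v σ →
    χ σ = (Ideal.absNorm v.asIdeal : ℚ_[ℓ])

/-- the rational matrix as an `ℓ`-adic matrix -/
noncomputable def adic (ℓ : ℕ) [Fact ℓ.Prime] {I : Type} (J : Matrix I I ℚ) : Matrix I I ℚ_[ℓ] :=
  J.map (Rat.castHom ℚ_[ℓ])

/-- `r ℓ`, for all prime numbers `ℓ`, are the Galois representations on the `ℓ`-adic Tate modules of a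
polarized abelian variety with good reduction outside of `S`, in a rational basis of the Betti homology:
they are continuous and act by similitudes of the alternating form `J` with the factor `χ ℓ`; the
characteristic polynomial `P v` of the Frobenius elements at `v` does not depend on `ℓ`, and has Weil
numbers of weight one as roots. -/
structure IsAbelianVariety {K : Type} [Field K] [NumberField K] (S : Set (HeightOneSpectrum (𝓞 K)))
    (P : HeightOneSpectrum (𝓞 K) → ℚ[X])
    (χ : ∀ (ℓ : ℕ) [Fact ℓ.Prime], AbsoluteGaloisGroup K →* ℚ_[ℓ]) {n : ℕ}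
    (J : Matrix (Fin n) (Fin n) ℚ)
    (r : ∀ (ℓ : ℕ) [Fact ℓ.Prime], AbsoluteGaloisGroup K →* Matrix (Fin n) (Fin n) ℚ_[ℓ]) : Prop where
  alternating : Jᵀ = -J
  nondegenerate : J.det ≠ 0
  weil : ∀ v ∉ S, IsWeil v (P v)
  continuous : ∀ (ℓ : ℕ) [Fact ℓ.Prime], Continuous (r ℓ)
  similitude : ∀ (ℓ : ℕ) [Fact ℓ.Prime] (g : AbsoluteGaloisGroup K),
    (r ℓ g)ᵀ * adic ℓ J * r ℓ g = χ ℓ g • adic ℓ J
  frobenius : ∀ (ℓ : ℕ) [Fact ℓ.Prime], ∀ v ∉ S, (ℓ : 𝓞 K) ∉ v.asIdeal →
    ∀ σ : AbsoluteGaloisGroup K, IsFrobenius v σ →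
      (r ℓ σ).charpoly = (P v).map (Rat.castHom ℚ_[ℓ])

/-- the representation on the column vectors -/
noncomputable def matRep {k G : Type} [Field k] [Group G] {n : ℕ}
    (r : G →* Matrix (Fin n) (Fin n) k) : Representation k G (Fin n → k) :=
  ((Matrix.toLinAlgEquiv' (R := k) (n := Fin n)).toAlgHom.toRingHom.toMonoidHom).comp r

/-- Faltings' theorem for all prime numbers `ℓ`: the representations are semisimple, also for subgroups
of finite index, and the matrices which commute with a subgroup of finite index are the combinations of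
the elements of the set `E` of rational matrices (the endomorphisms over the algebraic closure). -/
structure IsFaltings {G : Type} [Group G] {n : ℕ} (E : Set (Matrix (Fin n) (Fin n) ℚ))
    (r : ∀ (ℓ : ℕ) [Fact ℓ.Prime], G →* Matrix (Fin n) (Fin n) ℚ_[ℓ]) : Prop where
  semisimple : ∀ (ℓ : ℕ) [Fact ℓ.Prime], FiniteIndexSemisimple (matRep (r ℓ))
  endomorphisms : ∀ (ℓ : ℕ) [Fact ℓ.Prime] (T : Matrix (Fin n) (Fin n) ℚ_[ℓ]),
    (∃ Δ : Subgroup G, Δ.FiniteIndex ∧ ∀ g ∈ Δ, T * r ℓ g = r ℓ g * T) ↔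
      T ∈ Submodule.span ℚ_[ℓ] (adic ℓ '' E)

/-- The image of Galois modulo two is large: the lattices `ℤ₂ ^ N i` are stable, the forms are integral,
`N i ≥ 6`, the `N i + 1` integral vectors `e i a` have odd products `J i (e i a, e i b)` for
`a ≠ b`, and each even permutation of the vectors `e i a` modulo two is the action of an element of the
Galois group which acts trivially on the other lattices modulo two. -/
structure LargeModTwo {K : Type} [Field K] {ι : Type} {N : ι → ℕ}
    (J : ∀ i, Matrix (Fin (N i)) (Fin (N i)) ℚ)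
    (ρ : ∀ i, AbsoluteGaloisGroup K →* Matrix (Fin (N i)) (Fin (N i)) ℚ_[2])
    (e : ∀ i, Fin (N i + 1) → Fin (N i) → ℚ_[2]) : Prop where
  rank : ∀ i, 6 ≤ N i
  integral : ∀ i g a b, ‖ρ i g a b‖ ≤ 1
  integral_form : ∀ i a b, ‖adic 2 (J i) a b‖ ≤ 1
  integral_vectors : ∀ i a b, ‖e i a b‖ ≤ 1
  products : ∀ i a b, a ≠ b → ‖e i a ⬝ᵥ adic 2 (J i) *ᵥ e i b‖ = 1
  permutations : ∀ i (π : Equiv.Perm (Fin (N i + 1))), Equiv.Perm.sign π = 1 →
    ∃ g : AbsoluteGaloisGroup K, (∀ a b, ‖(ρ i g *ᵥ e i a - e i (π a)) b‖ < 1) ∧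
      ∀ j, j ≠ i → ∀ a b, ‖(ρ j g - 1) a b‖ < 1

/-- The 2-adic realization `τ` of `B` is integral, and modulo two it does not absorb
the permutations of the frames: for each `i` some element of the Galois group acts trivially modulo two on
the lattice of `B` and permutes all the frames modulo two, the `i`-th frame not trivially; or the
factorial of `N i + 1` is greater than `2 ^ (d ^ 2 + 1)`. -/
structure FreeValues {K : Type} [Field K] {ι : Type} {N : ι → ℕ} {d : ℕ}
    (ρ : ∀ i, AbsoluteGaloisGroup K →* Matrix (Fin (N i)) (Fin (N i)) ℚ_[2])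
    (e : ∀ i, Fin (N i + 1) → Fin (N i) → ℚ_[2])
    (τ : AbsoluteGaloisGroup K →* Matrix (Fin d) (Fin d) ℚ_[2]) : Prop where
  integral : ∀ g a b, ‖τ g a b‖ ≤ 1
  free : ∀ i, 2 ^ (d ^ 2 + 1) < (N i + 1).factorial ∨
    ∃ (g : AbsoluteGaloisGroup K) (π : ∀ j, Equiv.Perm (Fin (N j + 1))),
      (∀ a b, ‖(τ g - 1) a b‖ < 1) ∧ π i ≠ 1 ∧
        ∀ j a b, ‖(ρ j g *ᵥ e j a - e j (π j a)) b‖ < 1

/-- The matrix `T` kills all Tate tensors of the representation `ρ`: all multilinear forms which are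
multiplied by `χ ^ c` on a subgroup of finite index. -/
def InLieAlgebra {k I G : Type} [Field k] [Fintype I] [DecidableEq I] [Group G]
    (ρ : G →* Matrix I I k) (χ : G →* k) (T : Matrix I I k) : Prop :=
  ∀ (a : ℕ) (c : ℤ) (f : MultilinearMap k (fun _ : Fin a => I → k) k),
    (∃ Δ : Subgroup G, Δ.FiniteIndex ∧ ∀ s ∈ Δ, ∀ u, f (fun i => ρ s *ᵥ u i) = χ s ^ c * f u) →
    ∀ u, ∑ i, f (Function.update u i (T *ᵥ u i)) = 0

/-- the index set of the direct sum -/
abbrev Index {ι : Type} (N : ι → ℕ) (d : ℕ) : Type := (Σ i, Fin (N i)) ⊕ Fin d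

/-- block diagonal matrices -/
def blocks {k ι : Type} [Field k] [DecidableEq ι] {N : ι → ℕ} {d : ℕ}
    (Z : ∀ i, Matrix (Fin (N i)) (Fin (N i)) k) (Y : Matrix (Fin d) (Fin d) k) :
    Matrix (Index N d) (Index N d) k :=
  Matrix.fromBlocks (Matrix.blockDiagonal' Z) 0 0 Y

theorem blocks_one {k ι : Type} [Field k] [Fintype ι] [DecidableEq ι] {N : ι → ℕ} {d : ℕ} :
    blocks (fun i => (1 : Matrix (Fin (N i)) (Fin (N i)) k)) (1 : Matrix (Fin d) (Fin d) k) = 1 :=
  Pool.Agent.N197.QF.blk_one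

theorem blocks_mul {k ι : Type} [Field k] [Fintype ι] [DecidableEq ι] {N : ι → ℕ} {d : ℕ}
    (Z Z' : ∀ i, Matrix (Fin (N i)) (Fin (N i)) k) (Y Y' : Matrix (Fin d) (Fin d) k) :
    blocks (fun i => Z i * Z' i) (Y * Y') = blocks Z Y * blocks Z' Y' :=
  Pool.Agent.N197.QF.blk_mul _ _ _ _

/-- the direct sum of the representations -/
def sumRep {k G ι : Type} [Field k] [Group G] [Fintype ι] [DecidableEq ι] {N : ι → ℕ} {d : ℕ}
    (r : ∀ i, G →* Matrix (Fin (N i)) (Fin (N i)) k) (R : G →* Matrix (Fin d) (Fin d) k) :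
    G →* Matrix (Index N d) (Index N d) k where
  toFun g := blocks (fun i => r i g) (R g)
  map_one' := by
    simp only [map_one]
    exact blocks_one
  map_mul' g h := by
    simp only [map_mul]
    exact blocks_mul _ _ _ _

/-- the elements of the symplectic Lie algebra of the form `J` -/
def InSp {k : Type} [Field k] {n : ℕ} (J Z : Matrix (Fin n) (Fin n) k) : Prop :=
  Zᵀ * J + J * Z = 0

/-- the elements of the Lie algebra `𝔫` over the rational numbers -/
def InN {ι : Type} [DecidableEq ι] {N : ι → ℕ} {d : ℕ} (J : ∀ i, Matrix (Fin (N i)) (Fin (N i)) ℚ)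
    (t : Matrix (Index N d) (Index N d) ℚ) : Prop :=
  ∃ Z : ∀ i, Matrix (Fin (N i)) (Fin (N i)) ℚ, (∀ i, InSp (J i) (Z i)) ∧ t = blocks Z 0

/-- the matrix `T` kills the form `f` -/
def Kills {k I : Type} [Field k] [Fintype I] [DecidableEq I] {a : ℕ} (T : Matrix I I k)
    (f : MultilinearMap k (fun _ : Fin a => I → k) k) : Prop :=
  ∀ u, ∑ i, f (Function.update u i (T *ᵥ u i)) = 0

/-- the form `f` is multiplied by `χ ^ c` on a subgroup of finite index -/
def IsTate {k I G : Type} [Field k] [Fintype I] [DecidableEq I] [Group G]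
    (ρ : G →* Matrix I I k) (χ : G →* k) {a : ℕ} (c : ℤ)
    (f : MultilinearMap k (fun _ : Fin a => I → k) k) : Prop :=
  ∃ Δ : Subgroup G, Δ.FiniteIndex ∧ ∀ s ∈ Δ, ∀ u, f (fun i => ρ s *ᵥ u i) = χ s ^ c * f u

/-- A family of abelian varieties over a base `S`, and a point `x` of `S`, with the representations
`ρ'` of `Γ' = π_1(S)` and `ρ = ρ' ∘ s` of the Galois group `Γ` of `x` on the same Tate module;
`s : Γ → Γ'` is the section given by `x`, `P` is the geometric fundamental group, and `χ'`, `χ` are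
the cyclotomic characters. The last condition says that the connected monodromy group of the family
is contained in the connected group with Lie algebra `𝔫`: a form killed by `𝔫` is fixed by a subgroup
of finite index of `P`. -/
structure IsFamily {k I Γ Γ' : Type} [Field k] [Fintype I] [DecidableEq I] [Group Γ] [Group Γ']
    (ρ : Γ →* Matrix I I k) (χ : Γ →* k) (𝔫 : Set (Matrix I I k)) (ρ' : Γ' →* Matrix I I k)
    (χ' : Γ' →* k) (s : Γ →* Γ') (P : Subgroup Γ') : Prop where
  normal : P.Normal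
  gen : ∀ g : Γ', ∃ γ : Γ, g * (s γ)⁻¹ ∈ P
  rep : ∀ γ, ρ' (s γ) = ρ γ
  cyc : ∀ γ, χ' (s γ) = χ γ
  geo : ∀ g ∈ P, χ' g = 1
  mono : ∀ (a : ℕ) (f : MultilinearMap k (fun _ : Fin a => I → k) k),
    (∀ t ∈ 𝔫, Kills t f) → ∃ P₁ : Subgroup P, P₁.FiniteIndex ∧
      ∀ g ∈ P₁, ∀ u, f (fun i => ρ' (g : Γ') *ᵥ u i) = f u

/-- **Points which are not `ℓ`-Galois special.** -/
theorem result {K : Type} [Field K] [NumberField K] {ι : Type} [Fintype ι] [Nonempty ι]
    [DecidableEq ι] {N : ι → ℕ} {d : ℕ} (S : Set (HeightOneSpectrum (𝓞 K))) (hS : S.Finite)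
    (χ : ∀ (ℓ : ℕ) [Fact ℓ.Prime], AbsoluteGaloisGroup K →* ℚ_[ℓ])
    (hχ : ∀ (ℓ : ℕ) [Fact ℓ.Prime], IsCyclotomic S ℓ (χ ℓ))
    -- the abelian varieties `A i`
    (P : ι → HeightOneSpectrum (𝓞 K) → ℚ[X]) (J : ∀ i, Matrix (Fin (N i)) (Fin (N i)) ℚ)
    (r : ∀ (i : ι) (ℓ : ℕ) [Fact ℓ.Prime],
      AbsoluteGaloisGroup K →* Matrix (Fin (N i)) (Fin (N i)) ℚ_[ℓ])
    (hA : ∀ i, IsAbelianVariety S (P i) χ (J i) (r i))
    (E : ∀ i, Set (Matrix (Fin (N i)) (Fin (N i)) ℚ)) (hE : ∀ i, IsFaltings (E i) (r i))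
    -- the image modulo two
    (e : ∀ i, Fin (N i + 1) → Fin (N i) → ℚ_[2]) (h2 : LargeModTwo J (fun i => r i 2) e)
    -- the abelian variety `B`
    (Q : HeightOneSpectrum (𝓞 K) → ℚ[X]) (J' : Matrix (Fin d) (Fin d) ℚ)
    (R : ∀ (ℓ : ℕ) [Fact ℓ.Prime], AbsoluteGaloisGroup K →* Matrix (Fin d) (Fin d) ℚ_[ℓ])
    (hB : IsAbelianVariety S Q χ J' R) (hfree : FreeValues (fun i => r i 2) e (R 2)) :
    -- (1)
    (∀ (ℓ : ℕ) [Fact ℓ.Prime] (t : Matrix (Index N d) (Index N d) ℚ), InN J t →
      InLieAlgebra (sumRep (fun i => r i ℓ) (R ℓ)) (χ ℓ) (adic ℓ t)) ∧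
    -- (2)
    (∀ C : ∀ i, Matrix (Fin (N i)) (Fin (N i)) ℝ, (∀ i, C i * C i = -1) →
      ∃ Z : ∀ i, Matrix (Fin (N i)) (Fin (N i)) ℚ,
        InN (d := d) J (blocks Z 0) ∧ ∃ i, (Z i).map (Rat.castHom ℝ) * C i ≠
          C i * (Z i).map (Rat.castHom ℝ)) ∧
    -- (3)
    ∀ (ℓ : ℕ) [Fact ℓ.Prime] {Γ : Type} [Group Γ]
      (ρ' : Γ →* Matrix (Index N d) (Index N d) ℚ_[ℓ]) (χ' : Γ →* ℚ_[ℓ])
      (s : AbsoluteGaloisGroup K →* Γ) (G : Subgroup Γ),
      IsFamily (sumRep (fun i => r i ℓ) (R ℓ)) (χ ℓ) (adic ℓ '' {t | InN J t}) ρ' χ' s G →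
      ∀ (a : ℕ) (c : ℤ) (f : MultilinearMap ℚ_[ℓ] (fun _ : Fin a => Index N d → ℚ_[ℓ]) ℚ_[ℓ]),
        IsTate (sumRep (fun i => r i ℓ) (R ℓ)) (χ ℓ) c f ↔ IsTate ρ' χ' c f := by
  have hdet : ∀ (ℓ : ℕ) [Fact ℓ.Prime] {n : ℕ} (M : Matrix (Fin n) (Fin n) ℚ), M.det ≠ 0 →
      (adic ℓ M).det ≠ 0 := fun ℓ _ n M hM => by
    have h1 : (adic ℓ M).det = Rat.castHom ℚ_[ℓ] M.det :=
      (RingHom.map_det (Rat.castHom ℚ_[ℓ]) M).symm
    rw [h1]
    exact (_root_.map_ne_zero _).2 hM
  have halt : ∀ (ℓ : ℕ) [Fact ℓ.Prime] {n : ℕ} (M : Matrix (Fin n) (Fin n) ℚ), Mᵀ = -M →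
      (adic ℓ M)ᵀ = -adic ℓ M := fun ℓ _ n M hM => by
    have h1 : (adic ℓ M)ᵀ = adic ℓ Mᵀ := rfl
    rw [h1, hM]
    exact Matrix.ext fun i j => map_neg (Rat.castHom ℚ_[ℓ]) (M i j)
  have hP : ∀ v ∉ S, ∀ i, ∀ z : ℂ, aeval z (P i v) = 0 →
      ‖z‖ ^ 2 = (Ideal.absNorm v.asIdeal : ℝ) ∧
        IsIntegral ℤ ((Ideal.absNorm v.asIdeal : ℂ) ^ 0 * z) := fun v hv i z hz => by
    rw [pow_zero, one_mul]
    exact (hA i).weil v hv z hz
  have hQ : ∀ v ∉ S, ∀ z : ℂ, aeval z (Q v) = 0 →
      ‖z‖ ^ 2 = (Ideal.absNorm v.asIdeal : ℝ) ^ (1 : ℤ) ∧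
        IsIntegral ℤ ((Ideal.absNorm v.asIdeal : ℂ) ^ 0 * z) := fun v hv z hz => by
    rw [pow_zero, one_mul, zpow_one]
    exact hB.weil v hv z hz
  have hsc : ∀ (i : ι) (ℓ : ℕ) [Fact ℓ.Prime] (T : Matrix (Fin (N i)) (Fin (N i)) ℚ_[ℓ]),
      (∃ Δ : Subgroup (AbsoluteGaloisGroup K), Δ.FiniteIndex ∧
        ∀ g ∈ Δ, T * r i ℓ g = r i ℓ g * T) → ∃ c : ℚ_[ℓ], T = c • 1 := fun i ℓ _ T hT =>
    Pool.Agent.N197.QF.scal_all (lt_of_lt_of_le (by norm_num) (h2.rank i)) (E i) (r i)
      (hE i).endomorphisms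
      (Pool.Agent.N197.QF.scal_two (fun i => adic 2 (J i)) (fun i => r i 2) (χ 2)
        (fun i => halt 2 _ (hA i).alternating) (fun i => hdet 2 _ (hA i).nondegenerate)
        (fun i g => (hA i).similitude 2 g) e h2.rank h2.integral h2.integral_form
        h2.integral_vectors h2.products h2.permutations (R 2) hfree.integral hfree.free i) ℓ T hT
  have hone : ∀ (ℓ : ℕ) [Fact ℓ.Prime] (T : Matrix (Index N d) (Index N d) ℚ_[ℓ]),
      InLieAlgebra (sumRep (fun i => r i ℓ) (R ℓ)) (χ ℓ) T ↔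
        ∃ (Z : ∀ i, Matrix (Fin (N i)) (Fin (N i)) ℚ_[ℓ]) (Y : Matrix (Fin d) (Fin d) ℚ_[ℓ]),
          (∀ i, InSp (adic ℓ (J i)) (Z i)) ∧ InLieAlgebra (R ℓ) (χ ℓ) Y ∧ T = blocks Z Y := by
    intro ℓ hℓ T
    obtain ⟨φ, hφ, hφ'⟩ := Pool.Agent.N197.QF.polar (adic ℓ J') (hdet ℓ _ hB.nondegenerate) (R ℓ)
      (χ ℓ) 1 (fun g => by rw [zpow_one]; exact hB.similitude ℓ g)
    exact Pool.Agent.N197.QF.lie_transport (fun i => adic ℓ (J i)) (fun i => r i ℓ) (R ℓ) (χ ℓ)
      (fun T' => Pool.Agent.N197.QF.lie_prod (m := 0) (w := 1) S hS P Q hP hQ χ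
        (fun i ℓ _ => adic ℓ (J i)) r (fun i ℓ _ => (hA i).continuous ℓ)
        (fun i ℓ _ => halt ℓ _ (hA i).alternating) (fun i ℓ _ => hdet ℓ _ (hA i).nondegenerate)
        (fun i ℓ _ g => (hA i).similitude ℓ g) (fun ℓ _ => (hχ ℓ).frobenius)
        (fun i ℓ _ => (hA i).frobenius ℓ) e h2.rank h2.integral h2.integral_form
        h2.integral_vectors h2.products h2.permutations R (hB.continuous 2) hfree.integral
        hfree.free (fun ℓ _ => hB.frobenius ℓ) ℓ (fun i => (hE i).semisimple ℓ)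
        (fun i => hsc i ℓ) φ 1 hφ hφ' T') T
  have h1 : ∀ (ℓ : ℕ) [Fact ℓ.Prime] (t : Matrix (Index N d) (Index N d) ℚ), InN J t →
      InLieAlgebra (sumRep (fun i => r i ℓ) (R ℓ)) (χ ℓ) (adic ℓ t) := by
    rintro ℓ _ t ⟨Z, hZ, rfl⟩
    refine (hone ℓ _).2 ⟨fun i => adic ℓ (Z i), 0, fun i => ?_,
      Pool.Agent.N197.QF.inLieM_zero _ _, ?_⟩
    · have h5 : ((Z i)ᵀ * J i + J i * Z i).map (Rat.castHom ℚ_[ℓ]) =
          (0 : Matrix (Fin (N i)) (Fin (N i)) ℚ).map (Rat.castHom ℚ_[ℓ]) := by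
        rw [show (Z i)ᵀ * J i + J i * Z i = 0 from hZ i]
      rw [Matrix.map_add _ (map_add _), Matrix.map_mul, Matrix.map_mul,
        Matrix.map_zero _ (map_zero _)] at h5
      exact h5
    · show (blocks Z 0).map _ = _
      unfold blocks
      rw [Matrix.fromBlocks_map, Matrix.blockDiagonal'_map _ _ (map_zero _),
        Matrix.map_zero _ (map_zero _), Matrix.map_zero _ (map_zero _),
        Matrix.map_zero _ (map_zero _)]
      rfl
  refine ⟨h1, fun C hC => ?_, fun ℓ _ Γ _ ρ' χ' s G hF a c f => ⟨fun hf => ?_, fun hf => ?_⟩⟩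
  · obtain ⟨i₀⟩ := ‹Nonempty ι›
    obtain ⟨z, hz, hzC⟩ := Pool.Agent.N197.QF.not_complex
      (lt_of_lt_of_le (by norm_num) (h2.rank i₀)) (J i₀) (hA i₀).alternating (hA i₀).nondegenerate
      (C i₀) (hC i₀)
    refine ⟨Pi.single i₀ z, ⟨Pi.single i₀ z, fun j => ?_, rfl⟩, i₀, ?_⟩
    · by_cases hj : j = i₀
      · subst hj
        rw [Pi.single_eq_same]
        exact hz
      · rw [Pi.single_eq_of_ne hj]
        show (0 : Matrix _ _ ℚ)ᵀ * J j + J j * 0 = 0
        simp
    · rw [Pi.single_eq_same]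
      exact hzC
  · refine Pool.Agent.N197.QF.tate_family _ _ ρ' χ' s G hF.normal hF.gen hF.rep hF.cyc hF.geo f hf
      (hF.mono a f ?_)
    rintro _ ⟨t, ht, rfl⟩
    exact h1 ℓ t ht a c f hf
  · exact Pool.Agent.N197.QF.tate_restrict _ _ ρ' χ' s hF.rep hF.cyc f hf

end Pool.Agent.Results.MP_09799c_ag.LargeImageModTwoPoints
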