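import Mathlib
import Pool.Agent.N183.U8.E6

/-!
# `ℓ`-Galois special points of `𝒜_g` have no good simple factor

Let `x` be a point of `𝒜_g` over a number field, or over a finitely generated field of characteristic
zero, embedded in `ℂ`, and let `X = A_x` be the corresponding abelian variety. The question is
whether `X` has complex multiplication if `x` is `ℓ`-Galois special, that is, if no closed
irreducible subvariety `Z ∋ x` of positive dimension has the same group `G_{ℓ,Z} = G_{ℓ,x}`. We show
that `x` is not `ℓ`-Galois special if **one** simple factor `Y` of `X` over `ℂ` (without complex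
multiplication) belongs to one of the following classes (`GoodNC`), **whatever the other simple
factors of `X` are**: nothing is supposed about them, and the Mumford-Tate conjecture for `X` need
not be known.

* The dimension of `Y` is at most three, and `Y` has no complex multiplication.
* `RealOdd`: `Y` is of Albert type I or II, of relative dimension odd or at most three.
* `Y` is of Albert type I or II (`RealMax`) and satisfies `GalMultTwo`, see below. For instance the
  Galois group contains a transvection of `V_s`, for a place of semistable reduction of (relative)
  toric rank one.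
* `Y` is of type IV and `Wide` (all embeddings `s` of a maximal subfield `ℚ[a]` of the endomorphism
  algebra occur in the tangent space, and the dimension `r` of the eigenspaces `V_s` is at most three
  or some `s` and its complex conjugate have multiplicity at least two), and satisfies
  - `QuadThree`: the endomorphism algebra is an imaginary quadratic field, and its multiplicities on
    the tangent space are at most three, or
  - `CopMult`: the multiplicity of some `s` in the tangent space is prime to `r`, or
  - `GalMultTwo`: for each `s` there is a pseudo-reflection or a transvection of `V_s` conjugation by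
    which is a combination of conjugations by elements of the Galois group which commute with the
    endomorphisms, or such an element acts on `V_s` with eigenvalues in two classes of coprime
    multiplicities, for instance a Frobenius element with two Newton slopes.

For example, an `ℓ`-Galois special point has no factor of dimension at most three without complex
multiplication, no factor of prime dimension with endomorphism algebra `ℚ`, and so on.

**The Lie algebra `𝔫`** (`InN`) consists of the endomorphisms `t` of `H_1(X, ℚ)` which commute with
the endomorphisms of `X`, are skew for the Riemann form, have trace zero with the endomorphisms of `X`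
and vanish on the isotypic parts of `X` which do not belong to `Y`. The theorem says

1. some `t` in `𝔫` does not commute with the complex structure of `X`;
2. `𝔫` kills all Tate tensors of `X`; and so `ℚ_ℓ ⊗ 𝔫` is contained in the Lie algebra of `G_{ℓ,x}`;
3. if the connected monodromy group of a family of abelian varieties through `X` is contained in the
   connected group `N` with the Lie algebra `𝔫` (`IsFamily`), then the Tate tensors of `X` are the
   same as those of the family.

**Consequences.** By Faltings `G_{ℓ,x}` is reductive, and so it is determined by the Tate tensors. By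
Deligne it is contained in `G_x ⊗ ℚ_ℓ`, and so `N` is a connected subgroup of the Mumford-Tate group
`G_x` by (2), and it is normal and semisimple (it is normalized by all symplectic similitudes which
commute with the endomorphisms of `X`). The orbit of a lifting of `x` to the Siegel upper half space
under `N(ℝ)⁺` is one of the factors of the Hermitian symmetric domain of `G_x`, and by Moonen's
theorem its image `Z` in `𝒜_g` is a closed irreducible algebraic (weakly special) subvariety
through `x`. It is of positive dimension by (1). Its connected monodromy group is contained in `N`.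
Let `L` be a finitely generated field of definition of `Z` and `x`, `Γ = Gal(L)`, `Γ'` the
fundamental group of (a finite covering of the normalization of) `Z_L`, and `P` its geometric
fundamental group; the point `x` gives a section `s : Γ → Γ'`, and (3) applies. So `G_{ℓ,Z} = G_{ℓ,x}`
and `x` is not `ℓ`-Galois special.

**The proof.** Let `𝔤` be the Lie algebra generated by the Hodge-Tate elements `h` of `X` over `ℂ`;
the operators `D = 2 h - 1` are involutions. The restriction of `𝔤` to `V_s = V_s(Y)` contains
`𝔰𝔩(V_s)`, or it is the symplectic Lie algebra (up to scalars) for the types I and II. As `𝔤` is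
reductive, it has an ideal `𝔞` which is mapped isomorphically onto the derived algebra of this
restriction. Let `R` be a stable subspace of `ℂ ⊗ V` which contains neither `V_s` nor its twisted
dual. All embeddings `s` occur in the tangent space, so `D` is not a scalar on `V_s` for the
Hodge-Tate elements, and the action of `𝔞 ≅ 𝔰𝔩(V_s)` or `𝔰𝔭(V_s)` on `R` is equivariant for the pairs
of involutions `(D|V_s, D|R)`; it is shown, by a computation with elements of rank one and without
the classification, that `𝔞` acts on `R` by zero. (If `D|V_s` had a simple eigenvalue for all `h`
then an exterior power of `V_s` could occur in `R`; this is excluded by `Wide`.) By the theorem of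
Faltings `R` may be any part of the other isotypic parts of `X`, or of the other `V_u(Y)`. Therefore
`ℂ ⊗ 𝔫` is contained in `𝔤`, and the elements of `𝔤` kill the Tate tensors. Finally (3) holds since a
subgroup of finite index of `P` fixes the forms killed by `𝔫`, and `P` and `s(Γ)` generate `Γ'`.
-/

namespace Pool.Agent.Results.MP_09799c_ag.OneGoodFactor

open Module Pool.Agent.Y90 Pool.Agent.R915 Pool.Agent.N183.U8 TensorProduct
open Pool.Agent.Y224.TS.St (IsTateModule)
open Pool.Agent.H204R3.SP (IsTate Kills)

/-- **Points which are not `ℓ`-Galois special.** Let `X` be an abelian variety over a number field or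
a finitely generated field, given (as a complex abelian variety) by `X : AV`, a polarization `E` and
the representation `ρ` of the Galois group `Γ` on the Tate module `ℚ_ℓ ⊗ H_1(X, ℚ)`, with the known
properties of the Tate module (`IsTateModule`; `χ` is the cyclotomic character, and `ℂ` is identified
with an algebraic closure of `ℚ_ℓ`). Let `Y` be one simple factor of `X` over `ℂ` which is of one of
the types above. Then there is an element `t` of `𝔫` which is not an endomorphism of `X`; all
elements of `𝔫` kill all Tate tensors `φ` of `X`; and for a family with monodromy in `𝔫` the Tate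
tensors of the fibre `X` are the Tate tensors of the family. -/
theorem result (X : AV) (E : X.H → X.H → ℚ) (hE : Pool.Agent.Y90.St.IsPolarization X.per E)
    (ℓ : ℕ) [Fact ℓ.Prime] [Algebra ℚ_[ℓ] ℂ] [Algebra.IsAlgebraic ℚ_[ℓ] ℂ]
    {Γ : Type} [Group Γ] (ρ : Representation ℚ_[ℓ] Γ (ℚ_[ℓ] ⊗[ℚ] X.H)) (χ : Γ →* ℚ_[ℓ])
    (hρ : IsTateModule X.per E ρ χ) (Y : AV) (hY : IsFactor Y X) (hG : GoodNC X ρ Y) :
    (∃ t, InN X E Y t ∧ ¬ IsHom X X t) ∧
    (∀ (m : ℕ) (φ : MultilinearMap ℚ_[ℓ] (fun _ : Fin m × Fin 2 => ℚ_[ℓ] ⊗[ℚ] X.H) ℚ_[ℓ]),
      IsTate ρ χ m φ → ∀ t, InN X E Y t → Kills (t.baseChange ℚ_[ℓ]) φ) ∧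
    ∀ {Γ' : Type} [Group Γ'] (ρ' : Representation ℚ_[ℓ] Γ' (ℚ_[ℓ] ⊗[ℚ] X.H)) (χ' : Γ' →* ℚ_[ℓ])
      (s : Γ →* Γ') (P : Subgroup Γ'),
      IsFamily ρ χ {T | ∃ t, InN X E Y t ∧ T = t.baseChange ℚ_[ℓ]} ρ' χ' s P →
      ∀ (m : ℕ) (φ : MultilinearMap ℚ_[ℓ] (fun _ : Fin m × Fin 2 => ℚ_[ℓ] ⊗[ℚ] X.H) ℚ_[ℓ]),
        IsTate ρ χ m φ ↔ IsTate ρ' χ' m φ := by
  have hX := goodFor hY hG
  refine ⟨exists_def hE hρ hY hX, fun m φ hφ t ht => kills_tate hE hρ hX ht hφ, ?_⟩
  intro Γ' _ ρ' χ' s P hF m φ
  refine ⟨fun hφ => hF.tate hφ ?_, fun hφ => ?_⟩
  · rintro _ ⟨t, ht, rfl⟩
    exact kills_tate hE hρ hX ht hφ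
  · obtain ⟨Δ, hΔ, h⟩ := hφ
    refine ⟨Δ.comap s, ⟨by
      rw [Subgroup.index_comap]
      exact (Subgroup.instFiniteIndex_subgroupOf Δ s.range).index_ne_zero⟩, fun g hg v => ?_⟩
    have h1 := h (s g) hg v
    rw [hF.rep, hF.cyc] at h1
    exact h1

end Pool.Agent.Results.MP_09799c_ag.OneGoodFactor
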